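import Pool.Agent.H480R2.LS.Golay

/-!
MP_5cdc53_co: the pairs `(k,L) = (11, {0,1,2,3,5})` and `(12, {0,1,2,3,4,6})` have the property of Q1.

`mm n k L` is the largest size of a family of `k`-subsets of an `n`-set whose distinct members meet in
a number of elements lying in `L`.
-/

set_option autoImplicit false

namespace Pool.Agent.Results.MP_5cdc53_co.TernaryGolayPairs

open Pool.Agent.H480R2.LS

theorem result :
    (∃ c : ℝ, 0 < c ∧ ∀ n : ℕ, 11 ≤ n → c * (n:ℝ) ^ 5 ≤ (mm n 11 {0, 1, 2, 3, 5} : ℝ)) ∧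
    (∃ c : ℝ, 0 < c ∧ ∀ n : ℕ, 12 ≤ n → c * (n:ℝ) ^ 6 ≤ (mm n 12 {0, 1, 2, 3, 4, 6} : ℝ)) := by
  constructor
  · obtain ⟨c, hc, h⟩ := le_mm_of_mem (by norm_num) mem11 le_rfl
    refine ⟨c, hc, fun n hn => ?_⟩
    have h1 := h n hn
    rw [show (5:ℝ) = ((5:ℕ):ℝ) by norm_num, Real.rpow_natCast] at h1
    exact h1
  · obtain ⟨c, hc, h⟩ := le_mm_of_mem (by norm_num) mem12 le_rfl
    refine ⟨c, hc, fun n hn => ?_⟩
    have h1 := h n hn
    rw [show (6:ℝ) = ((6:ℕ):ℝ) by norm_num, Real.rpow_natCast] at h1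
    exact h1

end Pool.Agent.Results.MP_5cdc53_co.TernaryGolayPairs
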